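import Pool.Agent.Y147.CW.Scale

/-!
`MP_674932_gt`, stronger form of the full answer: in every dimension `n ≥ 5`, even or odd, and for
every real weight `-w` with `w ≤ n`, there is no nonzero scalar conformal invariant which is a linear
combination of complete contractions of the covariant derivatives of the Schouten tensor.
-/

namespace Pool.Agent.Results.MP_674932_gt.AllWeightsAllDimensions

open CInv

/-- Let `n ≥ 5` and let `w ≤ n` be a real number. A real linear combination `c` of complete
contractions of the tensors `∇^l P` (`P` the Schouten tensor) which is a scalar conformal invariant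
of weight `-w` in dimension `n` vanishes identically on all `n`-dimensional Riemannian metrics. -/
theorem result (n : ℕ) (h5 : 5 ≤ n) (w : ℝ) (hw : w ≤ n) (c : Contraction →₀ ℝ)
    (hc : ∀ (U : Set (Fin n → ℝ)), IsOpen U →
      ∀ g : (Fin n → ℝ) → Matrix (Fin n) (Fin n) ℝ, IsMetricOn U g →
      ∀ ω : (Fin n → ℝ) → ℝ, ContDiffOn ℝ (⊤ : ℕ∞) ω U → ∀ x ∈ U,
        value c (fun y => Real.exp (2 * ω y) • g y) x
          = Real.exp (-w * ω x) * value c g x)
    (U : Set (Fin n → ℝ)) (hU : IsOpen U)
    (g : (Fin n → ℝ) → Matrix (Fin n) (Fin n) ℝ) (hg : IsMetricOn U g)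
    (x : Fin n → ℝ) (hx : x ∈ U) :
    value c g x = 0 :=
  Pool.Agent.Y147.CW.main_all n h5 w hw c hc U hU g hg x hx

end Pool.Agent.Results.MP_674932_gt.AllWeightsAllDimensions
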